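import Pool.Agent.Helper362.IdealD
set_option autoImplicit false
open Module NormedSpace Filter MeasureTheory
open scoped Topology ENNReal

universe u

namespace Pool.Agent.H80.Linf

variable {𝕜 : Type} [RCLike 𝕜]

section Emb

variable {Ω : Type u} [MeasurableSpace Ω] (μ : Measure Ω) {V : Type} 
  (s : SimpleFunc Ω V)

/-- the values which are taken on a set of positive measure -/
noncomputable def S0 : Finset V := by
  classical
  exact s.range.filter (fun x => μ (s ⁻¹' {x}) ≠ 0)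

lemma mem_S0 (x : V) : x ∈ S0 μ s ↔ μ (s ⁻¹' {x}) ≠ 0 := by
  classical
  unfold S0
  rw [Finset.mem_filter]
  refine ⟨fun h => h.2, fun h => ⟨?_, h⟩⟩
  rw [SimpleFunc.mem_range]
  by_contra hcon
  apply h
  have : s ⁻¹' {x} = ∅ := by
    ext ω
    simp only [Set.mem_preimage, Set.mem_singleton_iff, Set.mem_empty_iff_false, iff_false]
    intro h1
    exact hcon ⟨ω, h1⟩
  rw [this, measure_empty]

/-- the index set -/
def Idx : Type u := ULift.{u} (S0 μ s)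

noncomputable instance : Fintype (Idx μ s) := inferInstanceAs (Fintype (ULift.{u} (S0 μ s)))

/-- the function with the given values on the cells -/
noncomputable def gg (a : Idx μ s → 𝕜) (x : V) : 𝕜 := by
  classical
  exact if h : x ∈ S0 μ s then a ⟨⟨x, h⟩⟩ else 0

lemma gg_of_mem (a : Idx μ s → 𝕜) (x : V) (h : x ∈ S0 μ s) : gg μ s a x = a ⟨⟨x, h⟩⟩ := by
  unfold gg
  rw [dif_pos h]

lemma gg_add (a b : Idx μ s → 𝕜) (x : V) : gg μ s (a + b) x = gg μ s a x + gg μ s b x := by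
  unfold gg
  split_ifs
  · rfl
  · rw [add_zero]

lemma gg_smul (c : 𝕜) (a : Idx μ s → 𝕜) (x : V) : gg μ s (c • a) x = c * gg μ s a x := by
  unfold gg
  split_ifs
  · rfl
  · rw [mul_zero]

lemma norm_gg_le (a : Idx μ s → 𝕜) (x : V) : ‖gg μ s a x‖ ≤ ‖a‖ := by
  unfold gg
  split_ifs with h
  · exact norm_le_pi_norm a _
  · rw [norm_zero]; exact norm_nonneg _

/-- the element of `L_∞` -/
noncomputable def kel (a : Idx μ s → 𝕜) : Lp 𝕜 ∞ μ :=
  ((s.map (gg μ s a)).memLp_top μ).toLp _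

lemma kel_ae (a : Idx μ s → 𝕜) : kel μ s a =ᵐ[μ] fun ω => gg μ s a (s ω) :=
  MemLp.coeFn_toLp _

lemma norm_kel (a : Idx μ s → 𝕜) : ‖kel μ s a‖ = ‖a‖ := by
  apply le_antisymm
  · unfold kel
    rw [Lp.norm_toLp]
    refine ENNReal.toReal_le_of_le_ofReal (norm_nonneg _) ?_
    rw [eLpNorm_exponent_top]
    refine eLpNormEssSup_le_of_ae_bound ?_
    exact Eventually.of_forall fun ω => norm_gg_le μ s a _
  · rw [pi_norm_le_iff_of_nonneg (norm_nonneg _)]
    rintro ⟨⟨x, hx⟩⟩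
    have hx' := (mem_S0 μ s x).mp hx
    have h1 : ∀ᵐ ω ∂μ, ‖kel μ s a ω‖ ≤ ‖kel μ s a‖ := by
      have h2 : ∀ᵐ ω ∂μ, ‖kel μ s a ω‖ₑ ≤ eLpNormEssSup (kel μ s a) μ := enorm_ae_le_eLpNormEssSup _ _
      filter_upwards [h2] with ω hω
      have h3 : eLpNormEssSup (kel μ s a) μ ≠ ∞ := by
        have := Lp.eLpNorm_ne_top (kel μ s a)
        rwa [eLpNorm_exponent_top] at this
      have h4 := ENNReal.toReal_mono h3 hω
      rw [Lp.norm_def, eLpNorm_exponent_top]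
      simpa using h4
    have h2 : ∀ᵐ ω ∂μ, ‖gg μ s a (s ω)‖ ≤ ‖kel μ s a‖ := by
      filter_upwards [h1, kel_ae μ s a] with ω h3 h4
      rwa [← h4]
    have h3 : ∃ ω, s ω = x ∧ ‖gg μ s a (s ω)‖ ≤ ‖kel μ s a‖ := by
      by_contra hcon
      push Not at hcon
      apply hx'
      refine measure_mono_null ?_ h2
      intro ω hω
      have h5 : s ω = x := hω
      exact not_le.mpr (hcon ω h5)
    obtain ⟨ω, h4, h5⟩ := h3
    rw [h4, gg_of_mem μ s a x hx] at h5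
    exact h5

/-- the isometric embedding of `ℓ_∞^n` -/
noncomputable def kap : (Idx μ s → 𝕜) →ₗᵢ[𝕜] Lp 𝕜 ∞ μ where
  toFun := kel μ s
  map_add' := by
    intro a b
    apply Lp.ext
    filter_upwards [kel_ae μ s (a + b), kel_ae μ s a, kel_ae μ s b,
      Lp.coeFn_add (kel μ s a) (kel μ s b)] with ω h1 h2 h3 h4
    rw [h1, h4, Pi.add_apply, h2, h3, gg_add]
  map_smul' := by
    intro c a
    apply Lp.ext
    filter_upwards [kel_ae μ s (c • a), kel_ae μ s a,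
      Lp.coeFn_smul c (kel μ s a)] with ω h1 h2 h3
    rw [h1]
    show _ = (c • kel μ s a : Lp 𝕜 ∞ μ) ω
    rw [h3, Pi.smul_apply, h2, gg_smul, smul_eq_mul]
  norm_map' := norm_kel μ s

lemma exists_proj : ∃ P : Lp 𝕜 ∞ μ →L[𝕜] (Idx μ s → 𝕜), ‖P‖ ≤ 1 ∧
    ∀ a, P (kap (𝕜 := 𝕜) μ s a) = a := by
  have h1 : ∀ j : Idx μ s, ∃ φ : StrongDual 𝕜 (Lp 𝕜 ∞ μ), ‖φ‖ ≤ 1 ∧
      ∀ a, φ (kap (𝕜 := 𝕜) μ s a) = a j := by
    intro j
    let e := (kap (𝕜 := 𝕜) μ s).equivRange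
    let f : (LinearMap.range (kap (𝕜 := 𝕜) μ s).toLinearMap) →L[𝕜] 𝕜 :=
      (ContinuousLinearMap.proj (R := 𝕜) (φ := fun _ : Idx μ s => 𝕜) j) ∘L
        (e.symm.toContinuousLinearEquiv : _ →L[𝕜] _)
    have hf : ‖f‖ ≤ 1 := by
      refine ContinuousLinearMap.opNorm_le_bound _ zero_le_one (fun x => ?_)
      have h2 : f x = e.symm x j := rfl
      rw [h2, one_mul]
      exact (norm_le_pi_norm _ j).trans (e.symm.norm_map x).le
    obtain ⟨φ, hφ1, hφ2⟩ := exists_extension_norm_eq _ f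
    refine ⟨φ, hφ2.le.trans hf, fun a => ?_⟩
    have h3 := hφ1 (e a)
    have h4 : ((e a : LinearMap.range (kap (𝕜 := 𝕜) μ s).toLinearMap) : Lp 𝕜 ∞ μ) =
      kap (𝕜 := 𝕜) μ s a := rfl
    rw [h4] at h3
    rw [h3]
    show e.symm (e a) j = a j
    rw [e.symm_apply_apply]
  choose φ hφ1 hφ2 using h1
  refine ⟨ContinuousLinearMap.pi φ, ?_, ?_⟩
  · refine ContinuousLinearMap.opNorm_le_bound _ zero_le_one (fun x => ?_)
    rw [one_mul, pi_norm_le_iff_of_nonneg (norm_nonneg _)]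
    intro j
    refine ((φ j).le_opNorm x).trans ?_
    have := norm_nonneg x
    have := hφ1 j
    nlinarith
  · intro a
    funext j
    exact hφ2 j a

lemma ae_mem_S0 : ∀ᵐ ω ∂μ, s ω ∈ S0 μ s := by
  classical
  have h1 : {ω | ¬ s ω ∈ S0 μ s} ⊆ ⋃ x ∈ s.range.filter (fun x => μ (s ⁻¹' {x}) = 0), s ⁻¹' {x} := by
    intro ω hω
    have hω' : ¬ s ω ∈ S0 μ s := hω
    rw [mem_S0, not_not] at hω'
    rw [Set.mem_iUnion₂]
    exact ⟨s ω, by rw [Finset.mem_filter]; exact ⟨s.mem_range_self ω, hω'⟩, rfl⟩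
  refine measure_mono_null h1 ?_
  refine (measure_biUnion_null_iff
    (Finset.countable_toSet (s.range.filter (fun x => μ (s ⁻¹' {x}) = 0)))).mpr ?_
  intro x hx
  exact (Finset.mem_filter.mp hx).2

end Emb

end Pool.Agent.H80.Linf
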