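import Pool.Agent.H80.LinfA
set_option autoImplicit false
open Module NormedSpace Filter MeasureTheory
open scoped Topology ENNReal

universe u

namespace Pool.Agent.H80.Linf

variable {𝕜 : Type} [RCLike 𝕜]

/-- simultaneous approximation by simple functions -/
lemma exists_simple {Ω : Type u} [MeasurableSpace Ω] (μ : Measure Ω) (n : ℕ)
    (e : Fin n → Lp 𝕜 ∞ μ) (η : ℝ) (hη : 0 < η) :
    ∃ s : SimpleFunc Ω (Fin n → 𝕜), ∀ᵐ ω ∂μ, ∀ i, ‖s ω i - e i ω‖ ≤ η := by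
  classical
  let _ : MeasurableSpace 𝕜 := borel 𝕜
  have _ : BorelSpace 𝕜 := ⟨rfl⟩
  let F : Ω → (Fin n → 𝕜) := fun ω i => e i ω
  have hF : Measurable F := measurable_pi_lambda _ fun i => (Lp.stronglyMeasurable (e i)).measurable
  set C : ℝ := ∑ i, ‖e i‖ with hC
  have hC0 : 0 ≤ C := Finset.sum_nonneg fun i _ => norm_nonneg _
  have h1 : ∀ i, ∀ᵐ ω ∂μ, ‖e i ω‖ ≤ C := by
    intro i
    have h2 : ∀ᵐ ω ∂μ, ‖e i ω‖ₑ ≤ eLpNormEssSup (e i) μ := enorm_ae_le_eLpNormEssSup _ _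
    filter_upwards [h2] with ω hω
    have h3 : eLpNormEssSup (e i) μ ≠ ∞ := by
      have := Lp.eLpNorm_ne_top (e i)
      rwa [eLpNorm_exponent_top] at this
    have h4 := ENNReal.toReal_mono h3 hω
    have h5 : ‖e i‖ = (eLpNormEssSup (e i) μ).toReal := by
      rw [Lp.norm_def, eLpNorm_exponent_top]
    have h6 : ‖e i‖ ≤ C := Finset.single_le_sum (f := fun i => ‖e i‖)
      (fun i _ => norm_nonneg _) (Finset.mem_univ i)
    have h7 : ‖e i ω‖ ≤ (eLpNormEssSup (e i) μ).toReal := by simpa using h4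
    linarith
  have h2 : ∀ᵐ ω ∂μ, F ω ∈ Metric.closedBall (0 : Fin n → 𝕜) C := by
    filter_upwards [ae_all_iff.mpr h1] with ω hω
    rw [mem_closedBall_zero_iff, pi_norm_le_iff_of_nonneg hC0]
    exact hω
  let d := TopologicalSpace.denseSeq (Fin n → 𝕜)
  obtain ⟨t, ht⟩ := (isCompact_closedBall (0 : Fin n → 𝕜) C).elim_finite_subcover
    (fun k : ℕ => Metric.ball (d k) η) (fun k => Metric.isOpen_ball) (by
      intro x _
      obtain ⟨k, hk⟩ := (TopologicalSpace.denseRange_denseSeq (Fin n → 𝕜)).exists_dist_lt x hη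
      exact Set.mem_iUnion.mpr ⟨k, hk⟩)
  obtain ⟨N, hN⟩ : ∃ N, ∀ k ∈ t, k ≤ N := ⟨t.sup id, fun k hk => Finset.le_sup (f := id) hk⟩
  refine ⟨(SimpleFunc.nearestPt d N).comp F hF, ?_⟩
  filter_upwards [h2] with ω hω i
  obtain ⟨k, hk⟩ := Set.mem_iUnion.mp (ht hω)
  obtain ⟨hkt, hk2⟩ := Set.mem_iUnion.mp hk
  have h3 := SimpleFunc.edist_nearestPt_le d (F ω) (hN k hkt)
  have h4 : edist (SimpleFunc.nearestPt d N (F ω)) (F ω) ≤ ENNReal.ofReal η := by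
    refine h3.trans ?_
    rw [edist_comm, edist_dist]
    exact ENNReal.ofReal_le_ofReal hk2.le
  rw [edist_dist, ENNReal.ofReal_le_ofReal_iff hη.le] at h4
  rw [dist_eq_norm] at h4
  exact (norm_le_pi_norm (SimpleFunc.nearestPt d N (F ω) - F ω) i).trans h4

/-- finite-dimensional subspaces of `L_∞(μ)` are, up to a small perturbation, contained in
`1`-complemented copies of `ℓ_∞^n` -/
theorem exists_copy {Ω : Type u} [MeasurableSpace Ω] (μ : Measure Ω)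
    (M : Submodule 𝕜 (Lp 𝕜 ∞ μ)) [FiniteDimensional 𝕜 M] (δ : ℝ) (hδ : 0 < δ) :
    ∃ (S : Type u) (_ : Fintype S) (κ : (S → 𝕜) →L[𝕜] Lp 𝕜 ∞ μ) (P : Lp 𝕜 ∞ μ →L[𝕜] (S → 𝕜))
      (V V' : Lp 𝕜 ∞ μ →L[𝕜] Lp 𝕜 ∞ μ), (∀ a, ‖κ a‖ = ‖a‖) ∧ ‖P‖ ≤ 1 ∧ (∀ a, P (κ a) = a) ∧
      (∀ f, V' (V f) = f) ∧ ‖V‖ ≤ 1 + δ ∧ ‖V'‖ ≤ 1 + δ ∧ ∀ m ∈ M, κ (P (V m)) = V m := by
  classical
  obtain ⟨δ', h1, h2, h3, h4⟩ : ∃ δ' : ℝ, 0 < δ' ∧ δ' < 1 ∧ δ' ≤ δ ∧ 1 ≤ (1 + δ) * (1 - δ') := by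
    refine ⟨min (1 / 2) (δ / (1 + δ)), by positivity, (min_le_left _ _).trans_lt (by norm_num),
      ?_, ?_⟩
    · refine (min_le_right _ _).trans ?_
      rw [div_le_iff₀ (by linarith)]
      nlinarith
    · have h5 : min (1 / 2) (δ / (1 + δ)) ≤ δ / (1 + δ) := min_le_right _ _
      have h6 : (1 + δ) * (δ / (1 + δ)) = δ := by field_simp
      have h7 := mul_le_mul_of_nonneg_left h5 (show 0 ≤ 1 + δ by linarith)
      rw [h6] at h7
      nlinarith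
  set b := Module.finBasis 𝕜 M with hb
  set e : Fin (finrank 𝕜 M) → Lp 𝕜 ∞ μ := fun i => (b i : Lp 𝕜 ∞ μ) with he
  have hc : ∀ i, ∃ φ : StrongDual 𝕜 (Lp 𝕜 ∞ μ), ∀ m : M, φ m = b.coord i m := by
    intro i
    obtain ⟨φ, hφ, -⟩ := exists_extension_norm_eq M (LinearMap.toContinuousLinearMap (b.coord i))
    exact ⟨φ, fun m => hφ m⟩
  choose c hc using hc
  set C : ℝ := ∑ i, ‖c i‖ with hC
  have hC0 : 0 ≤ C := Finset.sum_nonneg fun i _ => norm_nonneg _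
  have hη : 0 < δ' / (C + 1) := by positivity
  obtain ⟨s, hs⟩ := exists_simple μ _ e _ hη
  set κ := kap (𝕜 := 𝕜) μ s with hκ
  obtain ⟨P, hP1, hP2⟩ := exists_proj (𝕜 := 𝕜) μ s
  let v : Fin (finrank 𝕜 M) → (Idx μ s → 𝕜) := fun i j => j.down.1 i
  have hv : ∀ i, ‖κ (v i) - e i‖ ≤ δ' / (C + 1) := by
    intro i
    have h5 : ∀ᵐ ω ∂μ, ‖(κ (v i) - e i : Lp 𝕜 ∞ μ) ω‖ ≤ δ' / (C + 1) := by
      filter_upwards [hs, ae_mem_S0 μ s, kel_ae μ s (v i), Lp.coeFn_sub (κ (v i)) (e i)]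
        with ω h6 h7 h8 h9
      rw [h9, Pi.sub_apply]
      have h10 : κ (v i) ω = s ω i := by
        show kel μ s (v i) ω = _
        rw [h8, gg_of_mem μ s _ _ h7]
      rw [h10]
      exact h6 i
    rw [Lp.norm_def, eLpNorm_exponent_top]
    refine ENNReal.toReal_le_of_le_ofReal hη.le ?_
    exact eLpNormEssSup_le_of_ae_bound h5
  let K : Lp 𝕜 ∞ μ →L[𝕜] Lp 𝕜 ∞ μ := ∑ i, (c i).smulRight (κ (v i) - e i)
  have hK : ‖K‖ ≤ δ' := by
    refine (norm_sum_le _ _).trans ?_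
    have h5 : ∀ i ∈ Finset.univ, ‖(c i).smulRight (κ (v i) - e i)‖ ≤ ‖c i‖ * (δ' / (C + 1)) := by
      intro i _
      rw [ContinuousLinearMap.norm_smulRight_apply]
      exact mul_le_mul_of_nonneg_left (hv i) (norm_nonneg _)
    refine (Finset.sum_le_sum h5).trans ?_
    rw [← Finset.sum_mul, ← hC, mul_div_assoc', div_le_iff₀ (by positivity)]
    nlinarith
  have hKt : ‖-K‖ < 1 := by rw [norm_neg]; linarith
  let U := Units.oneSub (-K) hKt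
  let V : Lp 𝕜 ∞ μ →L[𝕜] Lp 𝕜 ∞ μ := (U : Lp 𝕜 ∞ μ →L[𝕜] Lp 𝕜 ∞ μ)
  let V' : Lp 𝕜 ∞ μ →L[𝕜] Lp 𝕜 ∞ μ := ((U⁻¹ : (Lp 𝕜 ∞ μ →L[𝕜] Lp 𝕜 ∞ μ)ˣ) : _)
  have hV : ∀ f, V f = f + K f := by
    intro f
    have h5 : V = 1 - (-K) := rfl
    rw [h5, sub_neg_eq_add]
    rfl
  have hV'V : V' * V = 1 := Units.inv_mul U
  have hone : ‖(1 : Lp 𝕜 ∞ μ →L[𝕜] Lp 𝕜 ∞ μ)‖ ≤ 1 := ContinuousLinearMap.norm_id_le
  refine ⟨Idx μ s, inferInstance, κ.toContinuousLinearMap, P, V, V', κ.norm_map, hP1, hP2, ?_, ?_,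
    ?_, ?_⟩
  · intro f
    exact congrArg (fun l : Lp 𝕜 ∞ μ →L[𝕜] Lp 𝕜 ∞ μ => l f) hV'V
  · have h5 : V = 1 + K := by
      ext1 f
      exact hV f
    rw [h5]
    refine (norm_add_le _ _).trans ?_
    linarith
  · have h5 : V' = 1 - V' * K := by
      have h6 : V = 1 + K := by
        ext1 f
        exact hV f
      rw [h6, mul_add, mul_one] at hV'V
      rw [← hV'V]
      abel
    have h6 : ‖V'‖ ≤ 1 + ‖V'‖ * δ' := by
      conv_lhs => rw [h5]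
      refine (norm_sub_le _ _).trans ?_
      refine add_le_add hone ((norm_mul_le _ _).trans ?_)
      exact mul_le_mul_of_nonneg_left hK (norm_nonneg _)
    have h7 : ‖V'‖ * (1 - δ') ≤ (1 + δ) * (1 - δ') := by linarith
    exact le_of_mul_le_mul_right h7 (by linarith)
  · intro m hm
    obtain ⟨a, h6, h7⟩ : ∃ a : Fin (finrank 𝕜 M) → 𝕜,
        K m = ∑ i, a i • (κ (v i) - e i) ∧ m = ∑ i, a i • e i := by
      refine ⟨fun i => b.coord i ⟨m, hm⟩, ?_, ?_⟩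
      · show (∑ i, (c i).smulRight (κ (v i) - e i)) m = _
        rw [sum_apply]
        refine Finset.sum_congr rfl fun i _ => ?_
        rw [ContinuousLinearMap.smulRight_apply]
        congr 1
        exact hc i ⟨m, hm⟩
      · have h8 := congrArg (fun z : M => (z : Lp 𝕜 ∞ μ)) (b.sum_repr ⟨m, hm⟩)
        simp only [Submodule.coe_sum, Submodule.coe_smul] at h8
        exact h8.symm
    have h5 : V m = κ (∑ i, a i • v i) := by
      rw [hV, h6, map_sum]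
      have h8 : ∀ x : Lp 𝕜 ∞ μ, x = ∑ i, a i • e i →
          x + ∑ i, a i • (κ (v i) - e i) = ∑ i, κ (a i • v i) := by
        rintro _ rfl
        rw [← Finset.sum_add_distrib]
        refine Finset.sum_congr rfl fun i _ => ?_
        rw [map_smul, smul_sub]
        abel
      exact h8 m h7
    rw [h5]
    show κ (P (κ _)) = _
    rw [hP2]

end Pool.Agent.H80.Linf
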