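import Pool.Agent.H80.LinfB
set_option autoImplicit false
open Module NormedSpace Filter MeasureTheory
open scoped Topology ENNReal

universe u

namespace Pool.Agent.H80.Linf

open Pool.Agent.Helper362.Ideals

section Space

variable (𝕜 : Type) [RCLike 𝕜] {Ω : Type u} [MeasurableSpace Ω] (μ : Measure Ω)

/-- The Banach space `L_∞(μ)` (Mathlib's `Lp 𝕜 ∞ μ`). -/
def LI : Type u := Lp 𝕜 ∞ μ

noncomputable instance : NormedAddCommGroup (LI 𝕜 μ) :=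
  (inferInstance : NormedAddCommGroup (Lp 𝕜 ∞ μ))

noncomputable instance : NormedSpace 𝕜 (LI 𝕜 μ) :=
  (inferInstance : NormedSpace 𝕜 (Lp 𝕜 ∞ μ))

end Space

section Defs

variable {𝕜 : Type} [RCLike 𝕜]
variable {X W Y : Type u} [NormedAddCommGroup X] [NormedSpace 𝕜 X] [CompleteSpace X]
  [NormedAddCommGroup W] [NormedSpace 𝕜 W] [CompleteSpace W]
  [NormedAddCommGroup Y] [NormedSpace 𝕜 Y] [CompleteSpace Y]

/-- `j_W R = R₂ R₁` with `R₁ : X → Z`, `R₂ : Z → W''` and `‖R₂‖ ‖R₁‖ = r`. -/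
def FactorsVia (R : X →L[𝕜] W) (Z : Type u) [NormedAddCommGroup Z] [NormedSpace 𝕜 Z]
    (r : ℝ) : Prop :=
  ∃ (R₁ : X →L[𝕜] Z) (R₂ : Z →L[𝕜] Bidual 𝕜 W),
    (∀ x, R₂ (R₁ x) = jmap 𝕜 (R x)) ∧ r = ‖R₂‖ * ‖R₁‖

/-- The numbers `‖R₂‖ ‖R₁‖`, where `j_W R = R₂ R₁` runs through the factorizations of `j_W R`
through the spaces `L_∞(μ)`, `μ` any measure. -/
def linfCosts (R : X →L[𝕜] W) : Set ℝ :=
  {r | ∃ (Ω : Type u) (_ : MeasurableSpace Ω) (μ : Measure Ω), FactorsVia R (LI 𝕜 μ) r}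

/-- `R ∈ 𝔏_∞(X, W)`. -/
def IsLinf (R : X →L[𝕜] W) : Prop := (linfCosts R).Nonempty

/-- The norm `𝐋_∞(R)`. -/
noncomputable def linfNorm (R : X →L[𝕜] W) : ℝ := sInf (linfCosts R)

/-- `T = A R` with `R ∈ 𝔏_∞(X, W)`, `A ∈ 𝔅(W, Y)` and `𝐁(A) 𝐋_∞(R) = r`. -/
def ProdFactors (I : BanachIdeal.{u} 𝕜) (T : X →L[𝕜] Y) (W : Type u) [NormedAddCommGroup W]
    [NormedSpace 𝕜 W] [CompleteSpace W] (r : ℝ) : Prop :=
  ∃ (R : X →L[𝕜] W) (A : W →L[𝕜] Y), IsLinf R ∧ A ∈ I.mem W Y ∧ (∀ x, T x = A (R x)) ∧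
    r = I.nrm A * linfNorm R

/-- The numbers `𝐁(A) 𝐋_∞(R)`, where `T = A R` runs through the factorizations with
`R ∈ 𝔏_∞(X, W)` and `A ∈ 𝔅(W, Y)`, `W` any Banach space. -/
def prodCosts (I : BanachIdeal.{u} 𝕜) (T : X →L[𝕜] Y) : Set ℝ :=
  {r | ∃ (W : Type u) (_ : NormedAddCommGroup W) (_ : NormedSpace 𝕜 W) (_ : CompleteSpace W),
    ProdFactors I T W r}

/-- `T ∈ 𝔅 ∘ 𝔏_∞(X, Y)`. -/
def IsProd (I : BanachIdeal.{u} 𝕜) (T : X →L[𝕜] Y) : Prop := (prodCosts I T).Nonempty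

/-- The quasi-norm `𝐁 ∘ 𝐋_∞(T)`. -/
noncomputable def prodNorm (I : BanachIdeal.{u} 𝕜) (T : X →L[𝕜] Y) : ℝ := sInf (prodCosts I T)

end Defs

section Acc

variable {𝕜 : Type} [RCLike 𝕜] (I : BanachIdeal.{u} 𝕜)

/-- `T = J_N S` with `S ∈ 𝔅 ∘ 𝔏_∞(E, N)` and `𝐁 ∘ 𝐋_∞(S) ≤ r`. -/
def ProdFactorsThrough {E Y : Type u} [NormedAddCommGroup E] [NormedSpace 𝕜 E] [CompleteSpace E]
    [NormedAddCommGroup Y] [NormedSpace 𝕜 Y] [CompleteSpace Y] (T : E →L[𝕜] Y) (r : ℝ)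
    (N : Submodule 𝕜 Y) [CompleteSpace N] : Prop :=
  ∃ S : E →L[𝕜] N, T = N.subtypeL ∘L S ∧ IsProd I S ∧ prodNorm I S ≤ r

/-- One operator: `T = J_N S` with `N ⊆ Y` finite-dimensional and
`𝐁 ∘ 𝐋_∞(S) ≤ (1 + ε) 𝐁 ∘ 𝐋_∞(T)`. -/
def ProdAccAt {E Y : Type u} [NormedAddCommGroup E] [NormedSpace 𝕜 E] [CompleteSpace E]
    [NormedAddCommGroup Y] [NormedSpace 𝕜 Y] [CompleteSpace Y] (T : E →L[𝕜] Y) (ε : ℝ) : Prop :=
  ∃ N : Submodule 𝕜 Y, FiniteDimensional 𝕜 N ∧ ∃ _ : CompleteSpace N,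
    ProdFactorsThrough I T ((1 + ε) * prodNorm I T) N

/-- Right-accessibility of `𝔅 ∘ 𝔏_∞`. -/
def ProdRightAccessible : Prop :=
  ∀ (E Y : Type u) [NormedAddCommGroup E] [NormedSpace 𝕜 E] [CompleteSpace E]
    [NormedAddCommGroup Y] [NormedSpace 𝕜 Y] [CompleteSpace Y], FiniteDimensional 𝕜 E →
    ∀ T : E →L[𝕜] Y, IsProd I T ∧ ∀ ε : ℝ, 0 < ε → ProdAccAt I T ε

end Acc

section Lemmas

variable {𝕜 : Type} [RCLike 𝕜]
variable {X W Y : Type u} [NormedAddCommGroup X] [NormedSpace 𝕜 X] [CompleteSpace X]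
  [NormedAddCommGroup W] [NormedSpace 𝕜 W] [CompleteSpace W]
  [NormedAddCommGroup Y] [NormedSpace 𝕜 Y] [CompleteSpace Y]

/-- the canonical embedding as an operator -/
noncomputable def jL : Y →L[𝕜] Bidual 𝕜 Y := inclusionInDoubleDual 𝕜 Y

lemma jL_apply (y : Y) : (jL y : Bidual 𝕜 Y) = jmap 𝕜 y := rfl

lemma norm_jmap (y : Y) : ‖jmap 𝕜 y‖ = ‖y‖ := (inclusionInDoubleDualLi (E := Y) 𝕜).norm_map y

lemma norm_jL_le : ‖(jL : Y →L[𝕜] Bidual 𝕜 Y)‖ ≤ 1 := by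
  refine ContinuousLinearMap.opNorm_le_bound _ zero_le_one (fun y => ?_)
  rw [jL_apply, norm_jmap, one_mul]

lemma linfCosts_nonneg (R : X →L[𝕜] W) (r : ℝ) (hr : r ∈ linfCosts R) : 0 ≤ r := by
  obtain ⟨Ω, _, μ, R₁, R₂, -, rfl⟩ := hr
  positivity

lemma linfCosts_bdd (R : X →L[𝕜] W) : BddBelow (linfCosts R) :=
  ⟨0, fun r hr => linfCosts_nonneg R r hr⟩

lemma linfNorm_nonneg (R : X →L[𝕜] W) : 0 ≤ linfNorm R :=
  Real.sInf_nonneg (linfCosts_nonneg R)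

lemma norm_le_linfNorm (R : X →L[𝕜] W) (hR : IsLinf R) : ‖R‖ ≤ linfNorm R := by
  refine le_csInf hR ?_
  rintro r ⟨Ω, _, μ, R₁, R₂, h, rfl⟩
  refine ContinuousLinearMap.opNorm_le_bound _ (by positivity) (fun x => ?_)
  rw [← norm_jmap (𝕜 := 𝕜) (R x), ← h x]
  refine (R₂.le_opNorm _).trans ?_
  rw [mul_assoc]
  exact mul_le_mul_of_nonneg_left (R₁.le_opNorm x) (norm_nonneg _)

variable (I : BanachIdeal.{u} 𝕜)

lemma prodCosts_nonneg (T : X →L[𝕜] Y) (r : ℝ) (hr : r ∈ prodCosts I T) : 0 ≤ r := by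
  obtain ⟨W, _, _, _, R, A, -, hA, -, rfl⟩ := hr
  exact mul_nonneg (I.nrm_nonneg A hA) (linfNorm_nonneg R)

lemma prodCosts_bdd (T : X →L[𝕜] Y) : BddBelow (prodCosts I T) :=
  ⟨0, fun r hr => prodCosts_nonneg I T r hr⟩

lemma norm_le_prodNorm (T : X →L[𝕜] Y) (hT : IsProd I T) : ‖T‖ ≤ prodNorm I T := by
  refine le_csInf hT ?_
  rintro r ⟨W, _, _, _, R, A, hR, hA, h, rfl⟩
  refine ContinuousLinearMap.opNorm_le_bound _
    (mul_nonneg (I.nrm_nonneg A hA) (linfNorm_nonneg R)) (fun x => ?_)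
  rw [h x, mul_assoc]
  refine (A.le_opNorm _).trans ?_
  refine mul_le_mul (I.norm_le_nrm A hA) ?_ (norm_nonneg _) (I.nrm_nonneg A hA)
  refine (R.le_opNorm x).trans ?_
  exact mul_le_mul_of_nonneg_right (norm_le_linfNorm R hR) (norm_nonneg _)

/-- operators on finite-dimensional spaces are in `𝔏_∞` -/
lemma isLinf_fd {E : Type u} [NormedAddCommGroup E] [NormedSpace 𝕜 E] [CompleteSpace E]
    [FiniteDimensional 𝕜 E] (R : E →L[𝕜] W) : IsLinf R := by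
  classical
  let n := finrank 𝕜 E
  let Ω : Type u := ULift.{u} (Fin n)
  let _ : MeasurableSpace Ω := ⊤
  let μ : Measure Ω := Measure.count
  let s : SimpleFunc Ω (Fin n) :=
    { toFun := fun ω => ω.down
      measurableSet_fiber' := fun _ => MeasurableSpace.measurableSet_top
      finite_range' := Set.toFinite _ }
  have hs : ∀ i : Fin n, i ∈ S0 μ s := by
    intro i
    rw [mem_S0]
    have h1 : (⟨i⟩ : Ω) ∈ s ⁻¹' {i} := rfl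
    have h2 : (s ⁻¹' {i} : Set Ω).Nonempty := ⟨_, h1⟩
    exact (Measure.count_ne_zero h2)
  let b : Basis (Fin n) 𝕜 E := Module.finBasis 𝕜 E
  let ι0 : E →ₗ[𝕜] (Idx μ s → 𝕜) := LinearMap.pi fun j => b.coord j.down.1
  have hι : Function.Injective ι0 := by
    rw [injective_iff_map_eq_zero]
    intro x hx
    have h1 : ∀ i, b.coord i x = 0 := fun i => congrFun hx ⟨⟨i, hs i⟩⟩
    rw [← b.sum_repr x]
    refine Finset.sum_eq_zero fun i _ => ?_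
    have h2 := h1 i
    rw [Basis.coord_apply] at h2
    rw [h2, zero_smul]
  obtain ⟨L, hL⟩ := LinearMap.exists_leftInverse_of_injective ι0 (LinearMap.ker_eq_bot.mpr hι)
  obtain ⟨P, hP1, hP2⟩ := exists_proj (𝕜 := 𝕜) μ s
  refine ⟨_, Ω, inferInstance, μ,
    (kap (𝕜 := 𝕜) μ s).toContinuousLinearMap ∘L LinearMap.toContinuousLinearMap ι0,
    jL ∘L R ∘L LinearMap.toContinuousLinearMap L ∘L P, fun x => ?_, rfl⟩
  show jL (R (L (P (kap (𝕜 := 𝕜) μ s (ι0 x))))) = _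
  rw [hP2, jL_apply]
  have h1 : L (ι0 x) = x := congrArg (fun l => l x) hL
  rw [h1]

lemma isProd_fd {E : Type u} [NormedAddCommGroup E] [NormedSpace 𝕜 E] [CompleteSpace E]
    [FiniteDimensional 𝕜 E] (T : E →L[𝕜] Y) : IsProd I T :=
  ⟨_, E, _, _, inferInstance, ContinuousLinearMap.id 𝕜 E, T, isLinf_fd _, I.mem_fd T,
    fun _ => rfl, rfl⟩

/-- the main step -/
lemma step (hI : LRP I.toIdealData) {E : Type u} [NormedAddCommGroup E] [NormedSpace 𝕜 E]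
    [CompleteSpace E] [FiniteDimensional 𝕜 E] (R : E →L[𝕜] W) (A : W →L[𝕜] Y)
    (hA : A ∈ I.mem W Y) {Ω : Type u} [MeasurableSpace Ω] (μ : Measure Ω)
    (R₁ : E →L[𝕜] Lp 𝕜 ∞ μ) (R₂ : Lp 𝕜 ∞ μ →L[𝕜] Bidual 𝕜 W)
    (h : ∀ x, R₂ (R₁ x) = jmap 𝕜 (R x)) (δ : ℝ) (hδ : 0 < δ) :
    ∃ N : Submodule 𝕜 Y, FiniteDimensional 𝕜 N ∧ ∃ _ : CompleteSpace N, ∃ S : E →L[𝕜] N,
      A ∘L R = N.subtypeL ∘L S ∧ IsProd I S ∧
        prodNorm I S ≤ (1 + δ) ^ 4 * (I.nrm A * (‖R₂‖ * ‖R₁‖)) := by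
  classical
  obtain ⟨ι, _, κ, P, V, V', hκ, hP, hPκ, hVV, hV, hV', hM⟩ :=
    exists_copy μ (LinearMap.range (R₁ : E →ₗ[𝕜] Lp 𝕜 ∞ μ)) δ hδ
  let R₁' : E →L[𝕜] (ι → 𝕜) := P ∘L V ∘L R₁
  let U : (ι → 𝕜) →L[𝕜] Bidual 𝕜 W := R₂ ∘L V' ∘L κ
  have hU : ∀ x, U (R₁' x) = jmap 𝕜 (R x) := by
    intro x
    show R₂ (V' (κ (P (V (R₁ x))))) = _
    rw [hM (R₁ x) ⟨x, rfl⟩, hVV, h]
  have hR₁' : ‖R₁'‖ ≤ (1 + δ) * ‖R₁‖ := by
    refine (ContinuousLinearMap.opNorm_comp_le _ _).trans ?_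
    have h1 : ‖V ∘L R₁‖ ≤ (1 + δ) * ‖R₁‖ := (ContinuousLinearMap.opNorm_comp_le _ _).trans
      (mul_le_mul_of_nonneg_right hV (norm_nonneg _))
    have h2 := norm_nonneg (V ∘L R₁)
    nlinarith
  have hκ1 : ‖κ‖ ≤ 1 := ContinuousLinearMap.opNorm_le_bound _ zero_le_one
    (fun a => by rw [hκ, one_mul])
  have hUn : ‖U‖ ≤ (1 + δ) * ‖R₂‖ := by
    refine (ContinuousLinearMap.opNorm_comp_le _ _).trans ?_
    have h1 : ‖V' ∘L κ‖ ≤ (1 + δ) * 1 := (ContinuousLinearMap.opNorm_comp_le _ _).trans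
      (mul_le_mul hV' hκ1 (norm_nonneg _) (by linarith))
    have h2 := norm_nonneg R₂
    nlinarith
  -- local reflexivity
  let G : Submodule 𝕜 (Bidual 𝕜 W) := LinearMap.range (U : (ι → 𝕜) →ₗ[𝕜] Bidual 𝕜 W)
  obtain ⟨Q, hQ1, -, hQ2⟩ := plrB (𝕜 := 𝕜) (Y := W) G inferInstance ⊥ inferInstance δ hδ
  let U' : (ι → 𝕜) →L[𝕜] G := U.codRestrict G (fun a => ⟨a, rfl⟩)
  have hU'n : ‖U'‖ ≤ ‖U‖ := by
    refine ContinuousLinearMap.opNorm_le_bound _ (norm_nonneg _) (fun a => ?_)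
    exact U.le_opNorm a
  let R₃ : (ι → 𝕜) →L[𝕜] W := Q ∘L U'
  have hR₃ : ∀ x, R₃ (R₁' x) = R x := fun x => hQ2 _ _ (hU x)
  have hR₃n : ‖R₃‖ ≤ (1 + δ) * ((1 + δ) * ‖R₂‖) := by
    refine (ContinuousLinearMap.opNorm_comp_le _ _).trans ?_
    exact mul_le_mul hQ1 (hU'n.trans hUn) (norm_nonneg _) (by linarith)
  -- right-accessibility
  have hRA := I.rightAccessible_of_LRP hI
  obtain ⟨N, hN, hNc, S₀, hS1, hS2⟩ := hRA (ι → 𝕜) Y inferInstance (A ∘L R₃) δ hδ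
  have hAR₃ : I.nrm (A ∘L R₃) ≤ I.nrm A * ‖R₃‖ := by
    have h1 := I.nrm_comp_le R₃ A (ContinuousLinearMap.id 𝕜 Y) hA
    rw [ContinuousLinearMap.id_comp] at h1
    refine h1.trans ?_
    have h2 : ‖ContinuousLinearMap.id 𝕜 Y‖ ≤ 1 := ContinuousLinearMap.norm_id_le
    have h3 : 0 ≤ I.nrm A * ‖R₃‖ := mul_nonneg (I.nrm_nonneg A hA) (norm_nonneg _)
    nlinarith
  refine ⟨N, hN, hNc, S₀ ∘L R₁', ?_, isProd_fd I _, ?_⟩
  · ext1 x
    have h1 := congrArg (fun l : (ι → 𝕜) →L[𝕜] Y => l (R₁' x)) hS1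
    show A (R x) = N.subtypeL (S₀ (R₁' x))
    rw [← hR₃ x]
    exact h1
  · have h1 : linfNorm R₁' ≤ (1 + δ) * ‖R₁‖ := by
      refine (csInf_le (linfCosts_bdd R₁') ⟨Ω, inferInstance, μ, κ ∘L R₁', jL ∘L P,
        fun x => ?_, rfl⟩).trans ?_
      · show jL (P (κ (R₁' x))) = _
        rw [hPκ, jL_apply]
      · have h2 : ‖(jL : (ι → 𝕜) →L[𝕜] Bidual 𝕜 (ι → 𝕜)) ∘L P‖ ≤ 1 := by
          refine (ContinuousLinearMap.opNorm_comp_le _ _).trans ?_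
          have h3 := norm_jL_le (𝕜 := 𝕜) (Y := (ι → 𝕜))
          have h4 := norm_nonneg (jL : (ι → 𝕜) →L[𝕜] Bidual 𝕜 (ι → 𝕜))
          have h5 := norm_nonneg P
          nlinarith
        have h3 : ‖κ ∘L R₁'‖ ≤ ‖R₁'‖ := by
          refine (ContinuousLinearMap.opNorm_comp_le _ _).trans ?_
          have h4 := norm_nonneg R₁'
          nlinarith
        have h4 := norm_nonneg (κ ∘L R₁')
        calc _ ≤ 1 * ‖R₁'‖ := mul_le_mul h2 h3 h4 zero_le_one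
          _ ≤ _ := by rw [one_mul]; exact hR₁'
    refine (csInf_le (prodCosts_bdd I _) ⟨ι → 𝕜, _, _, inferInstance, R₁', S₀, isLinf_fd _,
      I.mem_fd S₀, fun _ => rfl, rfl⟩).trans ?_
    have h2 : I.nrm S₀ ≤ (1 + δ) * (I.nrm A * ((1 + δ) * ((1 + δ) * ‖R₂‖))) := by
      refine hS2.trans (mul_le_mul_of_nonneg_left ?_ (by linarith))
      exact hAR₃.trans (mul_le_mul_of_nonneg_left hR₃n (I.nrm_nonneg A hA))
    have h3 := I.nrm_nonneg A hA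
    calc I.nrm S₀ * linfNorm R₁' ≤
        ((1 + δ) * (I.nrm A * ((1 + δ) * ((1 + δ) * ‖R₂‖)))) * ((1 + δ) * ‖R₁‖) := by
          refine mul_le_mul h2 h1 (linfNorm_nonneg _) (by positivity)
      _ = _ := by ring

/-- **Local reflexivity implies right-accessibility of `𝔅 ∘ 𝔏_∞`.** -/
theorem prodRightAccessible_of_LRP (hI : LRP I.toIdealData) : ProdRightAccessible I := by
  intro E Y _ _ _ _ _ _ hE T
  refine ⟨isProd_fd I T, fun ε hε => ?_⟩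
  by_cases hT : T = 0
  · refine ⟨⊥, inferInstance, inferInstance, 0, ?_, isProd_fd I _, ?_⟩
    · rw [hT]
      ext1 x
      rfl
    · have h1 : prodNorm I (0 : E →L[𝕜] (⊥ : Submodule 𝕜 Y)) ≤ 0 := by
        refine csInf_le (prodCosts_bdd I _) ⟨E, _, _, inferInstance, ContinuousLinearMap.id 𝕜 E,
          0, isLinf_fd _, Submodule.zero_mem _, fun _ => rfl, ?_⟩
        rw [I.nrm_zero, zero_mul]
      have h2 : 0 ≤ prodNorm I T := Real.sInf_nonneg (prodCosts_nonneg I T)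
      refine h1.trans (by positivity)
  · have hpos : 0 < prodNorm I T := (norm_pos_iff.mpr hT).trans_le
      (norm_le_prodNorm I T (isProd_fd I T))
    obtain ⟨δ, hδ, hδε⟩ : ∃ δ : ℝ, 0 < δ ∧ (1 + δ) ^ 6 ≤ 1 + ε := by
      have h1 : Tendsto (fun δ : ℝ => (1 + δ) ^ 6) (𝓝[>] 0) (𝓝 1) := by
        have h2 : Continuous fun δ : ℝ => (1 + δ) ^ 6 := by fun_prop
        have h3 := h2.tendsto 0
        simp only [add_zero, one_pow] at h3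
        exact h3.mono_left nhdsWithin_le_nhds
      have h2 := (h1.eventually (ge_mem_nhds (show (1 : ℝ) < 1 + ε by linarith))).and
        (self_mem_nhdsWithin : Set.Ioi (0 : ℝ) ∈ 𝓝[>] 0)
      obtain ⟨δ, h3, h4⟩ := h2.exists
      exact ⟨δ, h4, h3⟩
    have h1 : prodNorm I T < (1 + δ) * prodNorm I T := by nlinarith
    obtain ⟨r, ⟨W, _, _, _, R, A, hR, hA, hTAR, rfl⟩, hr⟩ :=
      exists_lt_of_csInf_lt (isProd_fd I T) h1
    have hTe : T = A ∘L R := by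
      ext1 x
      exact hTAR x
    have hlpos : 0 < linfNorm R := by
      refine lt_of_lt_of_le (norm_pos_iff.mpr ?_) (norm_le_linfNorm R hR)
      rintro rfl
      exact hT (by rw [hTe, ContinuousLinearMap.comp_zero])
    have h2 : linfNorm R < (1 + δ) * linfNorm R := by nlinarith
    obtain ⟨r, ⟨Ω, _, μ, R₁, R₂, hRR, rfl⟩, hr2⟩ := exists_lt_of_csInf_lt hR h2
    obtain ⟨N, hN, hNc, S, hS1, hS2, hS3⟩ := step I hI R A hA μ R₁ R₂ hRR δ hδ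
    refine ⟨N, hN, hNc, S, by rw [hTe]; exact hS1, hS2, hS3.trans ?_⟩
    have hA0 := I.nrm_nonneg A hA
    have h3 : I.nrm A * (‖R₂‖ * ‖R₁‖) ≤ (1 + δ) * ((1 + δ) * prodNorm I T) := by
      calc I.nrm A * (‖R₂‖ * ‖R₁‖) ≤ I.nrm A * ((1 + δ) * linfNorm R) :=
            mul_le_mul_of_nonneg_left hr2.le hA0
        _ = (1 + δ) * (I.nrm A * linfNorm R) := by ring
        _ ≤ _ := mul_le_mul_of_nonneg_left hr.le (by linarith)
    calc (1 + δ) ^ 4 * (I.nrm A * (‖R₂‖ * ‖R₁‖))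
        ≤ (1 + δ) ^ 4 * ((1 + δ) * ((1 + δ) * prodNorm I T)) :=
          mul_le_mul_of_nonneg_left h3 (by positivity)
      _ = (1 + δ) ^ 6 * prodNorm I T := by ring
      _ ≤ _ := mul_le_mul_of_nonneg_right hδε hpos.le

end Lemmas

end Pool.Agent.H80.Linf
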